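import Mathlib

/-!
A combinatorial certificate, read off from a vertex-facet incidence pattern, showing that in any
realization of the pattern the cone cut out by the functionals is generated by the vectors.
-/

namespace Pool.Agent.Lib.MP_866d96_co

/-- Recursive pulling check. `mask j` is the bit mask of the vertices on facet `j`. -/
def chk {N : ℕ} (mask : ℕ → ℕ) : ℕ → List (Fin N) → ℕ → List (Fin N) → Bool
  | 0, _, _, _ => true
  | _ + 1, [], _, _ => false
  | d + 1, i0 :: A, Am, J =>
    (J.any fun j => !(mask j).testBit i0) &&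
      J.all fun j => (mask j).testBit i0 ||
        chk mask d (A.filter fun i => (mask j).testBit i) (Am &&& mask j)
          (J.filter fun j1 => ((Am &&& mask j &&& mask j1) != (Am &&& mask j)) &&
            J.all fun j2 => ((Am &&& mask j &&& mask j2) == (Am &&& mask j)) ||
              ((Am &&& mask j &&& mask j1 &&& mask j2) != (Am &&& mask j &&& mask j1)) ||
              ((Am &&& mask j &&& mask j2) == (Am &&& mask j &&& mask j1)))

theorem chk_sound {N : ℕ} (mask : ℕ → ℕ) {V : Type*} [AddCommGroup V] [Module ℝ V]
    [FiniteDimensional ℝ V] (v : Fin N → V) (L : Fin N → V →ₗ[ℝ] ℝ)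
    (hpos : ∀ i j, 0 ≤ L j (v i)) (hzero : ∀ i j, L j (v i) = 0 ↔ (mask j).testBit i = true) :
    ∀ (d : ℕ) (A : List (Fin N)) (Am : ℕ) (J : List (Fin N)) (W : Submodule ℝ V),
      chk mask d A Am J = true → Module.finrank ℝ W ≤ d → (∀ i ∈ A, v i ∈ W) →
      ∀ x ∈ W, (∀ j ∈ J, 0 ≤ L j x) →
        ∃ c : Fin N → ℝ, (∀ i, 0 ≤ c i) ∧ x = ∑ i, c i • v i := by
  intro d
  induction d with
  | zero =>
    intro A Am J W _ hW _ x hx _
    have : W = ⊥ := Submodule.finrank_eq_zero.1 (Nat.le_zero.1 hW)
    rw [this, Submodule.mem_bot] at hx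
    exact ⟨0, fun _ => le_rfl, by simp [hx]⟩
  | succ d ih =>
    intro A Am J W hc hW hA x hx hJ
    cases A with
    | nil => simp [chk] at hc
    | cons i0 A =>
      rw [chk, Bool.and_eq_true, List.any_eq_true, List.all_eq_true] at hc
      obtain ⟨⟨j1, hj1, hj1'⟩, hall⟩ := hc
      classical
      let S : Finset (Fin N) := J.toFinset.filter fun j => (mask j).testBit i0 = false
      have hS : S.Nonempty := ⟨j1, by simpa [S, hj1] using hj1'⟩
      have hSpos : ∀ j ∈ S, 0 < L j (v i0) := by
        intro j hj
        refine lt_of_le_of_ne (hpos i0 j) fun h0 => ?_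
        have := (hzero i0 j).1 h0.symm
        simp [S, this] at hj
      obtain ⟨j, hjS, hmin⟩ := S.exists_min_image (fun j => L j x / L j (v i0)) hS
      have hjJ : j ∈ J := by
        simp only [S, Finset.mem_filter, List.mem_toFinset] at hjS
        exact hjS.1
      have hjb : (mask j).testBit i0 = false := (Finset.mem_filter.1 hjS).2
      set t := L j x / L j (v i0) with ht
      have ht0 : 0 ≤ t := div_nonneg (hJ j hjJ) (hpos _ _)
      have hi0 : v i0 ∈ W := hA i0 (by simp)
      have hrec := hall j hjJ
      rw [hjb, Bool.false_or] at hrec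
      have hlt : W ⊓ LinearMap.ker (L j) < W := by
        refine lt_of_le_of_ne inf_le_left fun h => ?_
        have : v i0 ∈ W ⊓ LinearMap.ker (L j) := by rw [h]; exact hi0
        exact (hSpos j hjS).ne' this.2
      have hfin := Submodule.finrank_lt_finrank_of_lt hlt
      obtain ⟨c, hc0, hc⟩ := ih _ _ _ (W ⊓ LinearMap.ker (L j)) hrec (by omega)
        (fun i hi => by
          rw [List.mem_filter] at hi
          exact ⟨hA i (List.mem_cons_of_mem _ hi.1), (hzero i j).2 hi.2⟩)
        (x - t • v i0)
        ⟨W.sub_mem hx (W.smul_mem t hi0), by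
          have := (hSpos j hjS).ne'
          simp only [SetLike.mem_coe, LinearMap.mem_ker, map_sub, map_smul, smul_eq_mul, ht]
          field_simp
          ring⟩
        (fun j' hj' => by
          have hj'J : j' ∈ J := (List.mem_filter.1 hj').1
          rw [map_sub, map_smul, smul_eq_mul]
          by_cases hb : (mask j').testBit i0 = true
          · rw [(hzero i0 j').2 hb, mul_zero, sub_zero]
            exact hJ j' hj'J
          · have hj'S : j' ∈ S := by simpa [S, hj'J] using hb
            have := hmin j' hj'S
            rw [le_div_iff₀ (hSpos j' hj'S)] at this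
            linarith)
      refine ⟨c + Pi.single i0 t, fun i => add_nonneg (hc0 i) ?_, ?_⟩
      · by_cases hi : i = i0
        · subst hi
          simpa using ht0
        · simp [hi]
      · simp only [Pi.add_apply, add_smul, Finset.sum_add_distrib, ← hc]
        rw [Finset.sum_eq_single i0 (fun b _ hb => by simp [hb]) (by simp)]
        simp

theorem tri_span {V : Type*} [AddCommGroup V] [Module ℝ V] [FiniteDimensional ℝ V]
    (hV : Module.finrank ℝ V = 5) (v : Fin 5 → V) (L : Fin 5 → V →ₗ[ℝ] ℝ)
    (h1 : ∀ k, L k (v k) ≠ 0) (h2 : ∀ k l, l < k → L k (v l) = 0)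
    (h : V →ₗ[ℝ] ℝ) (hh : ∀ k, h (v k) = 0) : h = 0 := by
  have hli : LinearIndependent ℝ v := by
    rw [Fintype.linearIndependent_iff]
    intro g hg
    have e : ∀ k, ∑ i, g i * L k (v i) = 0 := fun k => by
      have := congrArg (L k) hg
      simpa [map_sum] using this
    have e4 := e 4
    have e3 := e 3
    have e2 := e 2
    have e1 := e 1
    have e0 := e 0
    simp only [Fin.sum_univ_five] at e0 e1 e2 e3 e4
    rw [h2 4 0 (by decide), h2 4 1 (by decide), h2 4 2 (by decide), h2 4 3 (by decide)] at e4
    have g4 : g 4 = 0 := by simpa [h1 4] using e4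
    rw [h2 3 0 (by decide), h2 3 1 (by decide), h2 3 2 (by decide), g4] at e3
    have g3 : g 3 = 0 := by simpa [h1 3] using e3
    rw [h2 2 0 (by decide), h2 2 1 (by decide), g4, g3] at e2
    have g2 : g 2 = 0 := by simpa [h1 2] using e2
    rw [h2 1 0 (by decide), g4, g3, g2] at e1
    have g1 : g 1 = 0 := by simpa [h1 1] using e1
    rw [g4, g3, g2, g1] at e0
    have g0 : g 0 = 0 := by simpa [h1 0] using e0
    intro i
    fin_cases i <;> assumption
  have hs := hli.span_eq_top_of_card_eq_finrank' (by simp [hV])
  exact LinearMap.ext_on_range hs hh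

/-- Depth-first search for maps matching two weight tables. -/
def srch (n : ℕ) (cI cJ : ℕ → ℕ → ℕ) (good : List ℕ → Bool) :
    List ℕ → List (ℕ × ℕ) → Bool
  | [], asg => good (asg.map Prod.snd)
  | v :: rest, asg => (List.range n).all fun x =>
      !(cI v v == cJ x x && asg.all fun p => cI v p.1 == cJ x p.2) ||
        srch n cI cJ good rest ((v, x) :: asg)

theorem srch_sound (n : ℕ) (cI cJ : ℕ → ℕ → ℕ) (good : List ℕ → Bool) (β : ℕ → ℕ)
    (hβ : ∀ v, v < n → β v < n) (hc : ∀ u v, u < n → v < n → cI u v = cJ (β u) (β v)) :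
    ∀ (rest done : List ℕ), (∀ v ∈ rest, v < n) → (∀ v ∈ done, v < n) →
      srch n cI cJ good rest (done.map fun v => (v, β v)) = true →
      good ((rest.reverse ++ done).map β) = true := by
  intro rest
  induction rest with
  | nil =>
    intro done _ _ h
    simpa [srch, Function.comp_def] using h
  | cons v rest ih =>
    intro done hr hd h
    have hv : v < n := hr v (by simp)
    rw [srch, List.all_eq_true] at h
    have h1 := h (β v) (List.mem_range.2 (hβ v hv))
    have h2 : (cI v v == cJ (β v) (β v) &&
        (done.map fun v => (v, β v)).all fun p => cI v p.1 == cJ (β v) p.2) = true := by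
      rw [Bool.and_eq_true, List.all_eq_true]
      refine ⟨by simpa using hc v v hv hv, fun p hp => ?_⟩
      obtain ⟨u, hu, rfl⟩ := List.mem_map.1 hp
      simpa using hc v u hv (hd u hu)
    rw [h2, Bool.not_true, Bool.false_or] at h1
    have := ih (v :: done) (fun u hu => hr u (List.mem_cons_of_mem _ hu))
      (fun u hu => by
        rcases List.mem_cons.1 hu with rfl | hu
        · exact hv
        · exact hd u hu) h1
    simpa using this

end Pool.Agent.Lib.MP_866d96_co
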