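import Pool.Agent.Lib.MP_866d96_co.Complete

/-!
Realizations of an incidence pattern by points and inequalities in Euclidean 4-space.
-/

namespace Pool.Agent.Lib.MP_866d96_co

open Finset

abbrev E : Type := EuclideanSpace ℝ (Fin 4)

/-- Points `p i` and inequalities `⟪x, n j⟫ ≤ c j` valid on them, tight exactly on `r`. -/
structure Rz (r : Fin 38 → Fin 38 → Prop) (p n : Fin 38 → E) (c : Fin 38 → ℝ) : Prop where
  le : ∀ i j, inner ℝ (p i) (n j) ≤ c j
  eq : ∀ i j, inner ℝ (p i) (n j) = c j ↔ r i j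

/-- The homogenized slack functional. -/
noncomputable def Lh (n : E) (c : ℝ) : (ℝ × E) →ₗ[ℝ] ℝ where
  toFun z := c * z.1 - inner ℝ z.2 n
  map_add' a b := by
    simp only [Prod.fst_add, Prod.snd_add, inner_add_left]
    ring
  map_smul' t a := by
    simp only [Prod.smul_fst, Prod.smul_snd, real_inner_smul_left, smul_eq_mul, RingHom.id_apply]
    ring

@[simp] lemma Lh_apply (n : E) (c : ℝ) (x : E) : Lh n c (1, x) = c - inner ℝ x n := by
  simp [Lh]

lemma finrank_hom : Module.finrank ℝ (ℝ × E) = 5 := by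
  simp [Module.finrank_prod]

lemma mem_hull {p : Fin 38 → E} {x : E} : x ∈ convexHull ℝ (Set.range p) ↔
    ∃ w : Fin 38 → ℝ, (∀ i, 0 ≤ w i) ∧ ∑ i, w i = 1 ∧ x = ∑ i, w i • p i := by
  constructor
  · intro hx
    refine convexHull_min (t := {x | ∃ w : Fin 38 → ℝ, (∀ i, 0 ≤ w i) ∧ ∑ i, w i = 1 ∧
      x = ∑ i, w i • p i}) ?_ ?_ hx
    · rintro _ ⟨i, rfl⟩
      refine ⟨Pi.single i 1, fun k => ?_, by simp, ?_⟩
      · by_cases h : k = i
        · subst h
          simp
        · simp [h]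
      · rw [Finset.sum_eq_single i (fun b _ hb => by simp [hb]) (by simp)]
        simp
    · rintro _ ⟨w1, h1, s1, rfl⟩ _ ⟨w2, h2, s2, rfl⟩ a b ha hb hab
      refine ⟨fun i => a * w1 i + b * w2 i, fun i => ?_, ?_, ?_⟩
      · have := h1 i
        have := h2 i
        positivity
      · rw [sum_add_distrib, ← mul_sum, ← mul_sum, s1, s2]
        linarith
      · simp only [smul_sum, add_smul, smul_smul, sum_add_distrib]
  · rintro ⟨w, h0, h1, rfl⟩
    exact (convex_convexHull ℝ _).sum_mem (fun i _ => h0 i) h1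
      (fun i _ => subset_convexHull ℝ _ ⟨i, rfl⟩)

lemma inner_comb (s : Fin 38 → E) (w : Fin 38 → ℝ) (n : E) :
    inner ℝ (∑ i, w i • s i) n = ∑ i, w i * inner ℝ (s i) n := by
  simp only [sum_inner, real_inner_smul_left]

lemma hull_le {s : Fin 38 → E} {n : E} {c : ℝ} (h : ∀ i, inner ℝ (s i) n ≤ c) {x : E}
    (hx : x ∈ convexHull ℝ (Set.range s)) : inner ℝ x n ≤ c := by
  obtain ⟨w, h0, h1, rfl⟩ := mem_hull.1 hx
  rw [inner_comb]
  calc ∑ i, w i * inner ℝ (s i) n ≤ ∑ i, w i * c :=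
        sum_le_sum fun i _ => mul_le_mul_of_nonneg_left (h i) (h0 i)
    _ = c := by rw [← sum_mul, h1, one_mul]

lemma tight {s : Fin 38 → E} {n : E} {c : ℝ} (h : ∀ i, inner ℝ (s i) n ≤ c) {w : Fin 38 → ℝ}
    (h0 : ∀ i, 0 ≤ w i) (h1 : ∑ i, w i = 1) (hx : c ≤ inner ℝ (∑ i, w i • s i) n)
    (k : Fin 38) (hk : w k ≠ 0) : inner ℝ (s k) n = c := by
  rw [inner_comb] at hx
  have hs : ∑ i, w i * (c - inner ℝ (s i) n) = 0 := by
    refine le_antisymm ?_ (sum_nonneg fun i _ => mul_nonneg (h0 i) (sub_nonneg.2 (h i)))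
    simp only [mul_sub, sum_sub_distrib, ← sum_mul, h1]
    linarith
  have := (sum_eq_zero_iff_of_nonneg
    (fun i _ => mul_nonneg (h0 i) (sub_nonneg.2 (h i)))).1 hs k (mem_univ k)
  rcases mul_eq_zero.1 this with h2 | h2
  · exact absurd h2 hk
  · linarith

lemma exists_weight {w : Fin 38 → ℝ} (h1 : ∑ i, w i = 1) : ∃ k, w k ≠ 0 := by
  by_contra hc
  push Not at hc
  simp [hc] at h1

variable {r : Fin 38 → Fin 38 → Prop} {p n : Fin 38 → E} {c : Fin 38 → ℝ}

lemma Rz.complete (h : Rz r p n c) (m : ℕ → ℕ) (A : ℕ)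
    (hm : chk m 5 (List.finRange 38) A (List.finRange 38) = true)
    (hr : ∀ i j : Fin 38, (m j).testBit i = true ↔ r i j) (x : E)
    (hx : ∀ j, inner ℝ x (n j) ≤ c j) : x ∈ convexHull ℝ (Set.range p) := by
  obtain ⟨w, h0, hw⟩ := chk_sound m (fun i => ((1 : ℝ), p i)) (fun j => Lh (n j) (c j))
    (fun i j => by simpa using h.le i j)
    (fun i j => by rw [Lh_apply, hr, ← h.eq, sub_eq_zero, eq_comm])
    5 _ A _ ⊤ hm (by rw [finrank_top, finrank_hom]) (fun _ _ => Submodule.mem_top)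
    (1, x) Submodule.mem_top (fun j _ => by simpa using hx j)
  refine mem_hull.2 ⟨w, h0, ?_, ?_⟩
  · have := congrArg Prod.fst hw
    simpa [Prod.fst_sum] using this.symm
  · have := congrArg Prod.snd hw
    simpa [Prod.snd_sum] using this

lemma Rz.vertex (h : Rz r p n c) (hsep : ∀ i k, (∀ j, r i j → r k j) → k = i) (i : Fin 38) {x : E}
    (hx : x ∈ convexHull ℝ (Set.range p)) (ht : ∀ j, r i j → inner ℝ x (n j) = c j) :
    x = p i := by
  obtain ⟨w, h0, h1, rfl⟩ := mem_hull.1 hx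
  have hz : ∀ k, k ≠ i → w k = 0 := by
    intro k hk
    by_contra hne
    exact hk (hsep i k fun j hj =>
      (h.eq k j).1 (tight (fun i => h.le i j) h0 h1 (ht j hj).ge k hne))
  rw [Finset.sum_eq_single i (fun b _ hb => hz b hb) (by simp)] at h1
  rw [Finset.sum_eq_single i (fun b _ hb => by simp [hz b hb]) (by simp), h1, one_smul]

lemma Rz.vertex_mem (h : Rz r p n c) (hsep : ∀ i k, (∀ j, r i j → r k j) → k = i)
    {s : Fin 38 → E} (hs : ∀ k, s k ∈ convexHull ℝ (Set.range p)) (i : Fin 38)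
    (hi : p i ∈ convexHull ℝ (Set.range s)) : ∃ k, s k = p i := by
  obtain ⟨w, h0, h1, hw⟩ := mem_hull.1 hi
  obtain ⟨k, hk⟩ := exists_weight h1
  refine ⟨k, h.vertex hsep i (hs k) fun j hj => ?_⟩
  refine tight (fun k => hull_le (fun i => h.le i j) (hs k)) h0 h1 ?_ k hk
  rw [← hw]
  exact ((h.eq i j).2 hj).ge

lemma Rz.injective (h : Rz r p n c) (hsep : ∀ i k, (∀ j, r i j → r k j) → k = i) :
    Function.Injective p := by
  intro i k hik
  refine (hsep i k fun j hj => ?_).symm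
  rw [← h.eq, ← hik, h.eq]
  exact hj

/-- The face cut out by a set of inequalities. -/
def face (p n : Fin 38 → E) (c : Fin 38 → ℝ) (T : Fin 38 → Prop) : Set E :=
  {x | x ∈ convexHull ℝ (Set.range p) ∧ ∀ j, T j → inner ℝ x (n j) = c j}

lemma Rz.mem_face (h : Rz r p n c) (T : Fin 38 → Prop) (k : Fin 38) :
    p k ∈ face p n c T ↔ ∀ j, T j → r k j := by
  simp only [face, Set.mem_ofPred_eq, h.eq]
  exact and_iff_right (subset_convexHull ℝ _ ⟨k, rfl⟩)

lemma Rz.face_exposed (h : Rz r p n c) (T : Fin 38 → Prop) :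
    IsExposed ℝ (convexHull ℝ (Set.range p)) (face p n c T) := by
  classical
  rintro ⟨x0, hx0, ht0⟩
  refine ⟨innerSL ℝ (∑ j ∈ univ.filter T, n j), ?_⟩
  have hl : ∀ x : E, innerSL ℝ (∑ j ∈ univ.filter T, n j) x =
      ∑ j ∈ univ.filter T, inner ℝ x (n j) := by
    intro x
    rw [innerSL_apply_apply, real_inner_comm, inner_sum]
  ext x
  simp only [face, Set.mem_ofPred_eq, hl]
  refine and_congr_right fun hx => ⟨fun ht y hy => ?_, fun hmax j hj => ?_⟩
  · refine sum_le_sum fun j hj => ?_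
    rw [ht j (mem_filter.1 hj).2]
    exact hull_le (fun i => h.le i j) hy
  · have h1 := hmax x0 hx0
    have h2 : ∑ j ∈ univ.filter T, (c j - inner ℝ x (n j)) = 0 := by
      refine le_antisymm ?_ (sum_nonneg fun j _ => sub_nonneg.2 (hull_le (fun i => h.le i j) hx))
      have h3 : ∑ j ∈ univ.filter T, inner ℝ x0 (n j) = ∑ j ∈ univ.filter T, c j :=
        sum_congr rfl fun j hj => ht0 j (mem_filter.1 hj).2
      rw [sum_sub_distrib]
      linarith
    have := (sum_eq_zero_iff_of_nonneg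
      (fun j _ => sub_nonneg.2 (hull_le (fun i => h.le i j) hx))).1 h2 j
      (mem_filter.2 ⟨mem_univ j, hj⟩)
    linarith

lemma Rz.exposed_eq (h : Rz r p n c)
    (hH : ∀ x : E, (∀ j, inner ℝ x (n j) ≤ c j) → x ∈ convexHull ℝ (Set.range p))
    (hoff : ∀ i, ∃ j, ¬ r i j) {F : Set E} (hF : IsExposed ℝ (convexHull ℝ (Set.range p)) F) :
    F = face p n c fun j => ∀ i, p i ∈ F → r i j := by
  classical
  rcases F.eq_empty_or_nonempty with rfl | hne
  · symm
    rw [Set.eq_empty_iff_forall_notMem]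
    rintro x ⟨hx, ht⟩
    obtain ⟨w, h0, h1, rfl⟩ := mem_hull.1 hx
    obtain ⟨k, hk⟩ := exists_weight h1
    obtain ⟨j, hj⟩ := hoff k
    exact hj ((h.eq k j).1 (tight (fun i => h.le i j) h0 h1 (ht j (by simp)).ge k hk))
  obtain ⟨l, hl⟩ := hF hne
  obtain ⟨a, ha⟩ : ∃ a : E, ∀ x, l x = inner ℝ x a :=
    ⟨(InnerProductSpace.toDual ℝ E).symm l, fun x => by
      rw [real_inner_comm, InnerProductSpace.toDual_symm_apply]⟩
  have hmem : ∀ x, x ∈ F ↔ x ∈ convexHull ℝ (Set.range p) ∧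
      ∀ y ∈ convexHull ℝ (Set.range p), inner ℝ y a ≤ inner ℝ x a := by
    intro x
    rw [hl]
    simp only [Set.mem_ofPred_eq, ha]
  have hp : ∀ i, p i ∈ convexHull ℝ (Set.range p) := fun i => subset_convexHull ℝ _ ⟨i, rfl⟩
  have hsupp : ∀ w : Fin 38 → ℝ, (∀ i, 0 ≤ w i) → ∑ i, w i = 1 → ∑ i, w i • p i ∈ F →
      ∀ k, w k ≠ 0 → p k ∈ F := by
    intro w h0 h1 hx k hk
    have h2 := (hmem _).1 hx
    have h3 := tight (fun i => h2.2 _ (hp i)) h0 h1 le_rfl k hk
    exact (hmem _).2 ⟨hp k, fun y hy => h3 ▸ h2.2 y hy⟩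
  ext x
  constructor
  · intro hx
    have hx' := ((hmem x).1 hx).1
    refine ⟨hx', fun j hj => ?_⟩
    obtain ⟨w, h0, h1, rfl⟩ := mem_hull.1 hx'
    rw [inner_comb]
    calc ∑ i, w i * inner ℝ (p i) (n j) = ∑ i, w i * c j := by
          refine sum_congr rfl fun i _ => ?_
          by_cases hi : w i = 0
          · simp [hi]
          · rw [(h.eq i j).2 (hj i (hsupp w h0 h1 hx i hi))]
      _ = c j := by rw [← sum_mul, h1, one_mul]
  · rintro ⟨hx, ht⟩
    obtain ⟨x0, hx0⟩ := hne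
    have hFc : Convex ℝ F := hF.convex (convex_convexHull ℝ _)
    have hz : ∀ j, ∃ z ∈ F, (∀ i, p i ∈ F → r i j) ∨ inner ℝ z (n j) < c j := by
      intro j
      by_cases hj : ∀ i, p i ∈ F → r i j
      · exact ⟨x0, hx0, Or.inl hj⟩
      · push Not at hj
        obtain ⟨i, hi, hij⟩ := hj
        exact ⟨p i, hi, Or.inr (lt_of_le_of_ne (h.le i j) fun e => hij ((h.eq i j).1 e))⟩
    choose z hzF hz using hz
    set z0 : E := ∑ j, (1 / 38 : ℝ) • z j with hz0
    have hz0F : z0 ∈ F := hFc.sum_mem (fun _ _ => by norm_num) (by simp) (fun j _ => hzF j)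
    have hz0H := ((hmem z0).1 hz0F).1
    have hev : ∀ j, ∀ᶠ ε : ℝ in nhds 0, inner ℝ (z0 + ε • (z0 - x)) (n j) ≤ c j := by
      intro j
      rcases hz j with hj | hj
      · refine Filter.Eventually.of_forall fun ε => le_of_eq ?_
        have h1 : inner ℝ z0 (n j) = c j := by
          obtain ⟨w, h0, h1, hw⟩ := mem_hull.1 hz0H
          rw [hw, inner_comb]
          calc ∑ i, w i * inner ℝ (p i) (n j) = ∑ i, w i * c j := by
                refine sum_congr rfl fun i _ => ?_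
                by_cases hi : w i = 0
                · simp [hi]
                · rw [(h.eq i j).2 (hj i (hsupp w h0 h1 (hw ▸ hz0F) i hi))]
            _ = c j := by rw [← sum_mul, h1, one_mul]
        rw [inner_add_left, real_inner_smul_left, inner_sub_left, h1, ht j hj]
        ring
      · have h1 : inner ℝ z0 (n j) < c j := by
          refine lt_of_le_of_ne (hull_le (fun i => h.le i j) hz0H) fun e => ?_
          have := tight (s := z) (fun k => hull_le (fun i => h.le i j) ((hmem _).1 (hzF k)).1)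
            (w := fun _ => 1 / 38) (fun _ => by norm_num) (by simp) e.ge j (by norm_num)
          exact hj.ne this
        have hcont : Continuous fun ε : ℝ => inner ℝ (z0 + ε • (z0 - x)) (n j) := by fun_prop
        exact (hcont.tendsto 0).eventually (ge_mem_nhds (by simpa using h1))
    have hall := (Filter.eventually_all.2 hev).filter_mono (nhdsWithin_le_nhds (s := Set.Ioi 0))
    obtain ⟨ε, hε, hε0⟩ := (hall.and self_mem_nhdsWithin).exists
    have h2 := ((hmem z0).1 hz0F).2 _ (hH _ hε)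
    rw [inner_add_left, real_inner_smul_left, inner_sub_left] at h2
    have h3 : inner ℝ z0 a ≤ inner ℝ x a := by
      have : (0 : ℝ) < ε := hε0
      nlinarith
    exact (hmem x).2 ⟨hx, fun y hy => (((hmem z0).1 hz0F).2 y hy).trans h3⟩

lemma Rz.interior_nonempty (h : Rz r p n c)
    (hH : ∀ x : E, (∀ j, inner ℝ x (n j) ≤ c j) → x ∈ convexHull ℝ (Set.range p))
    (hoff : ∀ j, ∃ i, ¬ r i j) : (interior (convexHull ℝ (Set.range p))).Nonempty := by
  refine ⟨∑ i, (1 / 38 : ℝ) • p i, mem_interior.2 ⟨⋂ j, {x | inner ℝ x (n j) < c j},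
    fun x hx => hH x fun j => (Set.mem_iInter.1 hx j).le,
    isOpen_iInter_of_finite fun j => isOpen_lt (by fun_prop) continuous_const,
    Set.mem_iInter.2 fun j => ?_⟩⟩
  obtain ⟨i, hi⟩ := hoff j
  have hmem : ∑ i, (1 / 38 : ℝ) • p i ∈ convexHull ℝ (Set.range p) :=
    mem_hull.2 ⟨fun _ => 1 / 38, fun _ => by norm_num, by simp, rfl⟩
  have hle := hull_le (fun i => h.le i j) hmem
  refine lt_of_le_of_ne hle fun e => hi ((h.eq i j).1 ?_)
  exact tight (fun i => h.le i j) (w := fun _ => 1 / 38) (fun _ => by norm_num) (by simp) e.ge i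
    (by norm_num)

lemma face_anti {T T' : Fin 38 → Prop} (hT : ∀ j, T j → T' j) : face p n c T' ⊆ face p n c T :=
  fun _ hx => ⟨hx.1, fun j hj => hx.2 j (hT j hj)⟩

lemma Rz.dual_inv (h : Rz r p n c)
    (hH : ∀ x : E, (∀ j, inner ℝ x (n j) ≤ c j) → x ∈ convexHull ℝ (Set.range p))
    (hoff : ∀ i, ∃ j, ¬ r i j) (a b : Fin 38 → Fin 38) (hab : ∀ i k, r i (a k) ↔ r k (b i))
    (ha : ∀ j, ∃ i, a i = j) {F : Set E} (hF : IsExposed ℝ (convexHull ℝ (Set.range p)) F) :
    face p n c (fun j => ∃ k, p k ∈ face p n c (fun j => ∃ i, p i ∈ F ∧ b i = j) ∧ a k = j) =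
      F := by
  conv_rhs => rw [h.exposed_eq hH hoff hF]
  congr 1
  ext j
  simp only [h.mem_face]
  constructor
  · rintro ⟨k, hk, rfl⟩ i hi
    exact (hab i k).2 (hk _ ⟨i, hi, rfl⟩)
  · intro hj
    obtain ⟨k, rfl⟩ := ha j
    refine ⟨k, ?_, rfl⟩
    rintro _ ⟨i, hi, rfl⟩
    exact (hab i k).1 (hj i hi)

lemma Rz.self_dual (h : Rz r p n c)
    (hH : ∀ x : E, (∀ j, inner ℝ x (n j) ≤ c j) → x ∈ convexHull ℝ (Set.range p))
    (hoff : ∀ i, ∃ j, ¬ r i j) (a b : Fin 38 → Fin 38) (hab : ∀ i k, r i (a k) ↔ r k (b i))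
    (ha : ∀ j, ∃ i, a i = j) (hb : ∀ j, ∃ i, b i = j) :
    Nonempty ({F : Set E // IsExposed ℝ (convexHull ℝ (Set.range p)) F} ≃o
      ({F : Set E // IsExposed ℝ (convexHull ℝ (Set.range p)) F})ᵒᵈ) := by
  let Φ : (Fin 38 → Fin 38) → {F : Set E // IsExposed ℝ (convexHull ℝ (Set.range p)) F} →
      {F : Set E // IsExposed ℝ (convexHull ℝ (Set.range p)) F} :=
    fun s F => ⟨face p n c fun j => ∃ i, p i ∈ F.1 ∧ s i = j, h.face_exposed _⟩
  have hanti : ∀ s F G, F ≤ G → Φ s G ≤ Φ s F := fun s F G hFG =>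
    face_anti fun j ⟨i, hi, e⟩ => ⟨i, hFG hi, e⟩
  let e : {F : Set E // IsExposed ℝ (convexHull ℝ (Set.range p)) F} ≃
      ({F : Set E // IsExposed ℝ (convexHull ℝ (Set.range p)) F})ᵒᵈ :=
    { toFun := fun F => OrderDual.toDual (Φ b F)
      invFun := fun G => Φ a (OrderDual.ofDual G)
      left_inv := fun F => Subtype.ext (h.dual_inv hH hoff a b hab ha F.2)
      right_inv := fun G => congrArg OrderDual.toDual
        (Subtype.ext (h.dual_inv hH hoff b a (fun i k => (hab k i).symm) hb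
          (OrderDual.ofDual G).2)) }
  exact ⟨e.toOrderIso (fun F G hFG => hanti b F G hFG)
    (fun F G hFG => hanti a (OrderDual.ofDual G) (OrderDual.ofDual F) hFG)⟩

/-- A convex set with the origin in its interior and the same face lattice carries a realization
of the pattern with right-hand sides `1`. -/
lemma Rz.transfer (h : Rz r p n c) (hsep : ∀ i k, (∀ j, r i j → r k j) → k = i)
    (hoff : ∀ j, ∃ i, ¬ r i j) (hon : ∀ j, ∃ i, r i j) {Q : Set E} (h0 : (0 : E) ∈ interior Q)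
    (ψ : {F : Set E // IsExposed ℝ (convexHull ℝ (Set.range p)) F} ≃o
      {F : Set E // IsExposed ℝ Q F}) :
    ∃ q y : Fin 38 → E, Rz r q y (fun _ => 1) ∧ (∀ i, q i ∈ Q) ∧
      ∀ j, ∀ x ∈ Q, inner ℝ x (y j) ≤ 1 := by
  let A : Fin 38 → {F : Set E // IsExposed ℝ (convexHull ℝ (Set.range p)) F} :=
    fun i => ⟨face p n c (r i), h.face_exposed _⟩
  let B : Fin 38 → {F : Set E // IsExposed ℝ (convexHull ℝ (Set.range p)) F} :=
    fun j => ⟨face p n c (fun k => k = j), h.face_exposed _⟩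
  have hne : ∀ F : {F : Set E // IsExposed ℝ (convexHull ℝ (Set.range p)) F},
      F.1.Nonempty → (ψ F).1.Nonempty := by
    rintro F ⟨x, hx⟩
    by_contra hc
    rw [Set.not_nonempty_iff_eq_empty] at hc
    have : ψ F ≤ ψ ⟨∅, isExposed_empty⟩ := by
      intro z hz
      rw [hc] at hz
      exact absurd hz (Set.notMem_empty z)
    exact ψ.le_iff_le.1 this hx
  have hA : ∀ i, ∃ q, q ∈ (ψ (A i)).1 := fun i =>
    hne (A i) ⟨p i, (h.mem_face _ i).2 fun j hj => hj⟩
  choose q hq using hA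
  have hqQ : ∀ i, q i ∈ Q := fun i => (ψ (A i)).2.subset (hq i)
  have hqB : ∀ i j, q i ∈ (ψ (B j)).1 ↔ r i j := by
    intro i j
    constructor
    · intro hij
      by_contra hr
      let G : {F : Set E // IsExposed ℝ Q F} :=
        ⟨(ψ (A i)).1 ∩ (ψ (B j)).1, (ψ (A i)).2.inter (ψ (B j)).2⟩
      have h1 : ψ.symm G ≤ A i := ψ.symm_apply_le.2 fun z hz => hz.1
      have h2 : ψ.symm G ≤ B j := ψ.symm_apply_le.2 fun z hz => hz.2
      have h3 : ψ.symm G ≤ ψ.symm ⟨∅, isExposed_empty⟩ := by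
        intro z hz
        exfalso
        have h4 := h.vertex hsep i (h1 hz).1 (h1 hz).2
        have h5 := (h2 hz).2 j rfl
        rw [h4, h.eq] at h5
        exact hr h5
      exact ψ.symm.le_iff_le.1 h3 (⟨hq i, hij⟩ : q i ∈ G.1)
    · intro hr
      have : A i ≤ B j := face_anti fun k hk => hk ▸ hr
      exact ψ.le_iff_le.2 this (hq i)
  have hy : ∀ j, ∃ y : E, (∀ x ∈ Q, inner ℝ x y ≤ 1) ∧
      ∀ x ∈ Q, (inner ℝ x y = 1 ↔ x ∈ (ψ (B j)).1) := by
    intro j
    obtain ⟨i1, hi1⟩ := hon j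
    obtain ⟨i0, hi0⟩ := hoff j
    have hm := (hqB i1 j).2 hi1
    obtain ⟨l, hl⟩ := (ψ (B j)).2 ⟨_, hm⟩
    obtain ⟨a, ha⟩ : ∃ a : E, ∀ x, l x = inner ℝ x a :=
      ⟨(InnerProductSpace.toDual ℝ E).symm l, fun x => by
        rw [real_inner_comm, InnerProductSpace.toDual_symm_apply]⟩
    have hmem : ∀ x, x ∈ (ψ (B j)).1 ↔ x ∈ Q ∧ ∀ y ∈ Q, inner ℝ y a ≤ inner ℝ x a := by
      intro x
      rw [hl]
      simp only [Set.mem_ofPred_eq, ha]
    set M := inner ℝ (q i1) a with hM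
    have hmax : ∀ x ∈ Q, inner ℝ x a ≤ M := ((hmem _).1 hm).2
    have ha0 : a ≠ 0 := by
      intro e
      refine hi0 ((hqB i0 j).1 ((hmem _).2 ⟨hqQ i0, fun y _ => ?_⟩))
      simp [e]
    have hMpos : 0 < M := by
      have hcont : Continuous fun ε : ℝ => ε • a := by fun_prop
      have h1 : ∀ᶠ ε : ℝ in nhds 0, ε • a ∈ Q :=
        hcont.continuousAt.eventually (by simpa using mem_interior_iff_mem_nhds.1 h0)
      obtain ⟨ε, hε, hε0⟩ := ((h1.filter_mono
        (nhdsWithin_le_nhds (s := Set.Ioi 0))).and self_mem_nhdsWithin).exists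
      have h2 := hmax _ hε
      rw [real_inner_smul_left] at h2
      have h3 : 0 < inner ℝ a a := real_inner_self_pos.2 ha0
      have h4 : (0 : ℝ) < ε := hε0
      nlinarith
    refine ⟨M⁻¹ • a, fun x hx => ?_, fun x hx => ?_⟩
    · rw [real_inner_smul_right, inv_mul_le_iff₀ hMpos, mul_one]
      exact hmax x hx
    · rw [real_inner_smul_right, inv_mul_eq_iff_eq_mul₀ hMpos.ne', mul_one, hmem]
      exact ⟨fun e => ⟨hx, fun y hy => e ▸ hmax y hy⟩,
        fun e => le_antisymm (hmax x hx) (e.2 _ (hqQ i1))⟩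
  choose y hy1 hy2 using hy
  exact ⟨q, y, ⟨fun i j => hy1 j _ (hqQ i), fun i j => (hy2 j _ (hqQ i)).trans (hqB i j)⟩, hqQ,
    hy1⟩

end Pool.Agent.Lib.MP_866d96_co
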