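import Pool.Agent.Lib.MP_866d96_co.Data
import Pool.Agent.Lib.MP_866d96_co.Geometry

/-!
Classification of the dualities of the pattern, the geometric obstruction, and the explicit
realization.
-/

namespace Pool.Agent.Lib.MP_866d96_co

open Finset

theorem s0_getD : ∀ i : Fin 38, (s0L.map Fin.val).getD i 0 = (s0 i).val := by decide +kernel

theorem s1_getD : ∀ i : Fin 38, (s1L.map Fin.val).getD i 0 = (s1 i).val := by decide +kernel

lemma iso_cases (α β : Fin 38 → Fin 38) (hα : Function.Bijective α)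
    (h : ∀ i k, inc i (α k) ↔ inc k (β i)) : β = s0 ∨ β = s1 := by
  have hc : ∀ u v : Fin 38, cI u v = cJ (β u) (β v) := by
    intro u v
    rw [← cI_spec, ← cJ_spec]
    symm
    refine card_bijective α hα fun k => ?_
    simp only [mem_filter, mem_univ, true_and, h]
  let β' : ℕ → ℕ := fun v => if hv : v < 38 then (β ⟨v, hv⟩).val else 0
  have hβ' : ∀ i : Fin 38, β' i = β i := fun i => by simp [β']
  have h1 := srch_sound 38 cI cJ _ β' (fun v hv => by
      rw [show β' v = β ⟨v, hv⟩ from hβ' ⟨v, hv⟩]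
      exact (β _).2)
    (fun u v hu hv => by
      rw [show β' u = β ⟨u, hu⟩ from hβ' ⟨u, hu⟩, show β' v = β ⟨v, hv⟩ from hβ' ⟨v, hv⟩]
      exact hc ⟨u, hu⟩ ⟨v, hv⟩)
    (List.range 38) [] (fun v hv => List.mem_range.1 hv) (by simp) srch_true
  rw [List.append_nil, List.map_reverse, Bool.or_eq_true, beq_iff_eq, beq_iff_eq,
    List.reverse_inj, List.reverse_inj] at h1
  have h2 : ∀ i : Fin 38, ((List.range 38).map β').getD i 0 = (β i).val := by
    intro i
    rw [← hβ', List.getD_eq_getElem?_getD, List.getElem?_map, List.getElem?_range i.2]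
    rfl
  rcases h1 with h1 | h1
  · left
    funext i
    exact Fin.ext (by rw [← h2, h1, s0_getD])
  · right
    funext i
    exact Fin.ext (by rw [← h2, h1, s1_getD])

lemma dual_cases (α β : Fin 38 → Fin 38) (hα : Function.Bijective α) (hβ : Function.Bijective β)
    (h : ∀ i k, inc i (α k) ↔ inc k (β i)) : (α = s0 ∧ β = s1) ∨ (α = s1 ∧ β = s0) := by
  rcases iso_cases α β hα h with h1 | h1 <;>
    rcases iso_cases β α hβ (fun i k => (h k i).symm) with h2 | h2
  · subst h1 h2
    exact absurd (h 0 2) not_dual00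
  · exact Or.inr ⟨h2, h1⟩
  · exact Or.inl ⟨h2, h1⟩
  · subst h1 h2
    exact absurd (h 0 2) not_dual11

lemma obstruction {q y : Fin 38 → E} (h : Rz inc q y fun _ => 1)
    (h4 : inner ℝ (q 4) (y 2) = inner ℝ (q 4) (y 3))
    (h6 : inner ℝ (q 6) (y 2) = inner ℝ (q 6) (y 3))
    (h9 : inner ℝ (q 9) (y 2) = inner ℝ (q 9) (y 3)) : False := by
  let v : Fin 38 → ℝ × E := fun i => (1, q i)
  let L : Fin 38 → (ℝ × E) →ₗ[ℝ] ℝ := fun j => Lh (y j) 1
  have hL : ∀ i j, L j (v i) = 1 - inner ℝ (q i) (y j) := fun i j => Lh_apply _ _ _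
  have z : ∀ i j, inc i j → L j (v i) = 0 := fun i j hij => by
    rw [hL, (h.eq i j).2 hij, sub_self]
  have p : ∀ i j, ¬ inc i j → 0 < L j (v i) := fun i j hij => by
    rw [hL, sub_pos]
    exact lt_of_le_of_ne (h.le i j) fun e => hij ((h.eq i j).1 e)
  have span : ∀ (a b : Fin 5 → Fin 38), (∀ k, ¬ inc (a k) (b k)) →
      (∀ k l, l < k → inc (a l) (b k)) → ∀ g : (ℝ × E) →ₗ[ℝ] ℝ, (∀ k, g (v (a k)) = 0) →
      ∀ i, g (v i) = 0 := by
    intro a b h1 h2 g hg i
    rw [tri_span finrank_hom (fun k => v (a k)) (fun k => L (b k))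
      (fun k => (p _ _ (h1 k)).ne') (fun k l hlk => z _ _ (h2 k l hlk)) g hg]
    rfl
  let g := L 3 - L 2
  have g0 : g (v 0) = 0 := by simp [g, z 0 3 (by decide), z 0 2 (by decide)]
  have g1 : g (v 1) = 0 := by simp [g, z 1 3 (by decide), z 1 2 (by decide)]
  have g5 : g (v 5) = 0 := by simp [g, z 5 3 (by decide), z 5 2 (by decide)]
  have g4 : g (v 4) = 0 := by simp only [g, LinearMap.sub_apply, hL, h4, sub_self]
  have g6 : g (v 6) = 0 := by simp only [g, LinearMap.sub_apply, hL, h6, sub_self]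
  have g9 : g (v 9) = 0 := by simp only [g, LinearMap.sub_apply, hL, h9, sub_self]
  have g2 : 0 < g (v 2) := by
    simpa [g, z 2 2 (by decide)] using p 2 3 (by decide)
  have p716 := p 7 16 (by decide)
  have p219 := p 2 19 (by decide)
  have p016 := p 0 16 (by decide)
  have p019 := p 0 19 (by decide)
  have r1 := span ![1, 5, 9, 2, 7] ![0, 1, 2, 19, 16] (by decide) (by decide)
    (g - (g (v 7) / L 16 (v 7)) • L 16 - (g (v 2) / L 19 (v 2)) • L 19) (by
      intro k
      fin_cases k
      · simp [g1, z 1 16 (by decide), z 1 19 (by decide)]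
      · simp [g5, z 5 16 (by decide), z 5 19 (by decide)]
      · simp [g9, z 9 16 (by decide), z 9 19 (by decide)]
      · simp [z 2 16 (by decide), p219.ne']
      · simp [z 7 19 (by decide), p716.ne']) 0
  simp only [LinearMap.sub_apply, LinearMap.smul_apply, smul_eq_mul, g0] at r1
  have g7 : g (v 7) < 0 := by
    have a1 : 0 < g (v 2) / L 19 (v 2) * L 19 (v 0) := by positivity
    have a2 : g (v 7) / L 16 (v 7) * L 16 (v 0) < 0 := by linarith
    by_contra hc
    push Not at hc
    have : 0 ≤ g (v 7) / L 16 (v 7) * L 16 (v 0) := by positivity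
    linarith
  have p74 := p 7 4 (by decide)
  have p14 := p 1 4 (by decide)
  have p010 := p 0 10 (by decide)
  have p110 := p 1 10 (by decide)
  have p09 := p 0 9 (by decide)
  have p29 := p 2 9 (by decide)
  have r2 := span ![4, 6, 0, 2, 7] ![2, 0, 9, 14, 4] (by decide) (by decide)
    (g - (g (v 7) / L 4 (v 7)) • L 4 + (g (v 2) / L 9 (v 2) * L 9 (v 0) / L 10 (v 0)) • L 10
      - (g (v 2) / L 9 (v 2)) • L 9) (by
      intro k
      fin_cases k
      · simp [g4, z 4 4 (by decide), z 4 10 (by decide), z 4 9 (by decide)]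
      · simp [g6, z 6 4 (by decide), z 6 10 (by decide), z 6 9 (by decide)]
      · simp [g0, z 0 4 (by decide), p010.ne']
      · simp [z 2 4 (by decide), z 2 10 (by decide), p29.ne']
      · simp [z 7 10 (by decide), z 7 9 (by decide), p74.ne']) 1
  simp only [LinearMap.sub_apply, LinearMap.add_apply, LinearMap.smul_apply, smul_eq_mul, g1,
    z 1 9 (by decide)] at r2
  have a1 : 0 < g (v 2) / L 9 (v 2) * L 9 (v 0) / L 10 (v 0) * L 10 (v 1) := by positivity
  have a2 : g (v 7) / L 4 (v 7) * L 4 (v 1) < 0 :=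
    mul_neg_of_neg_of_pos (div_neg_of_neg_of_pos g7 p74) p14
  linarith

/-- The vertices of the polytope. -/
noncomputable def pP (i : Fin 38) : E :=
  !₂[(vert i 1 : ℝ) / vert i 0, (vert i 2 : ℝ) / vert i 0, (vert i 3 : ℝ) / vert i 0,
    (vert i 4 : ℝ) / vert i 0]

/-- The facet normals of the polytope. -/
noncomputable def nP (j : Fin 38) : E :=
  !₂[(fac j 1 : ℝ), (fac j 2 : ℝ), (fac j 3 : ℝ), (fac j 4 : ℝ)]

lemma rzP : Rz inc pP nP fun j => (fac j 0 : ℝ) := by
  have key : ∀ i j : Fin 38,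
      (fac j 0 : ℝ) - inner ℝ (pP i) (nP j) = (slackZ i j : ℝ) / vert i 0 := by
    intro i j
    have h0 : (vert i 0 : ℝ) ≠ 0 := by exact_mod_cast (vert_pos i).ne'
    simp only [pP, nP, slackZ, PiLp.inner_apply, Fin.sum_univ_four]
    simp
    field_simp
  constructor
  · intro i j
    have h0 : (0 : ℝ) < vert i 0 := by exact_mod_cast vert_pos i
    have h1 : (0 : ℝ) ≤ slackZ i j := by exact_mod_cast (slack_spec i j).1
    have := div_nonneg h1 h0.le
    rw [← key] at this
    linarith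
  · intro i j
    have h0 : (vert i 0 : ℝ) ≠ 0 := by exact_mod_cast (vert_pos i).ne'
    rw [← (slack_spec i j).2, eq_comm, ← sub_eq_zero, key, div_eq_zero_iff, or_iff_left h0,
      Int.cast_eq_zero]

/-- No realization of the pattern is self-polar. -/
lemma not_self_polar {q y : Fin 38 → E} (h : Rz inc q y fun _ => 1) {Q : Set E}
    (hq : ∀ i, q i ∈ Q) (hy : ∀ j, ∀ x ∈ Q, inner ℝ x (y j) ≤ 1)
    (U : E ≃ₗᵢ[ℝ] E) (hU : {z : E | ∀ x ∈ Q, inner ℝ x z ≤ (1 : ℝ)} = U '' Q) : False := by
  have hT : Rz (fun j i => inc i j) y q fun _ => 1 :=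
    ⟨fun j i => by rw [real_inner_comm]; exact h.le i j,
      fun j i => by rw [real_inner_comm]; exact h.eq i j⟩
  have cQ : ∀ {q' y' : Fin 38 → E}, Rz inc q' y' (fun _ => 1) → ∀ x : E,
      (∀ j, inner ℝ x (y' j) ≤ 1) → x ∈ convexHull ℝ (Set.range q') :=
    fun h' => h'.complete mask _ chk_mask (fun _ _ => Iff.rfl)
  have cP : ∀ z : E, (∀ x ∈ Q, inner ℝ x z ≤ 1) → z ∈ convexHull ℝ (Set.range y) :=
    fun z hz => hT.complete maskT _ chk_maskT (fun i j => maskT_eq j i) z fun i => by
      rw [real_inner_comm]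
      exact hz _ (hq i)
  have hUQ : ∀ x ∈ Q, ∀ x' ∈ Q, inner ℝ x' (U x) ≤ 1 := fun x hx => by
    have : U x ∈ {z : E | ∀ x ∈ Q, inner ℝ x z ≤ (1 : ℝ)} := hU ▸ ⟨x, hx, rfl⟩
    exact this
  have hyU : ∀ j, ∃ x ∈ Q, U x = y j := fun j => by
    have : y j ∈ U '' Q := hU ▸ hy j
    exact this
  have h1 : Rz inc (fun i => U (q i)) (fun j => U (y j)) fun _ => 1 :=
    ⟨fun i j => by rw [U.inner_map_map]; exact h.le i j,
      fun i j => by rw [U.inner_map_map]; exact h.eq i j⟩
  have h2 : Rz inc (fun i => U.symm (q i)) (fun j => U.symm (y j)) fun _ => 1 :=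
    ⟨fun i j => by rw [U.symm.inner_map_map]; exact h.le i j,
      fun i j => by rw [U.symm.inner_map_map]; exact h.eq i j⟩
  have hα : ∀ i, ∃ k, y k = U (q i) := fun i =>
    h1.vertex_mem vert_sep (s := y) (fun k => cQ h1 _ fun j => by
      obtain ⟨x, hx, e⟩ := hyU k
      rw [← e, U.inner_map_map]
      exact hy j x hx) i (cP _ (hUQ _ (hq i)))
  have hβ : ∀ i, ∃ k, y k = U.symm (q i) := fun i =>
    h2.vertex_mem vert_sep (s := y) (fun k => cQ h2 _ fun j => by
      obtain ⟨x, hx, e⟩ := hyU j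
      rw [← e, U.symm_apply_apply, real_inner_comm]
      exact hy k x hx) i (cP _ fun x hx => by
        rw [← U.inner_map_map, U.apply_symm_apply, real_inner_comm]
        exact hUQ x hx _ (hq i))
  choose α hα using hα
  choose β hβ using hβ
  have hαb : Function.Bijective α := Finite.injective_iff_bijective.1 fun a b hab =>
    h1.injective vert_sep (by simp only [← hα, hab])
  have hβb : Function.Bijective β := Finite.injective_iff_bijective.1 fun a b hab =>
    h2.injective vert_sep (by simp only [← hβ, hab])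
  have rel : ∀ i k, inner ℝ (q i) (y (α k)) = inner ℝ (q k) (y (β i)) := by
    intro i k
    rw [hα, hβ, ← U.inner_map_map (q k), U.apply_symm_apply, real_inner_comm]
  have hd := dual_cases α β hαb hβb fun i k => by rw [← h.eq, ← h.eq, rel]
  have fin : ∀ k, α k = 2 → β k = 3 → ∀ i, α i = β i →
      inner ℝ (q i) (y 2) = inner ℝ (q i) (y 3) := by
    intro k e2 e3 i ei
    rw [← e2, ← e3, rel, ← ei, rel]
  rcases hd with ⟨rfl, rfl⟩ | ⟨rfl, rfl⟩
  · exact obstruction h (fin 13 (by decide) (by decide) 4 (by decide))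
      (fin 13 (by decide) (by decide) 6 (by decide)) (fin 13 (by decide) (by decide) 9 (by decide))
  · exact obstruction h (fin 12 (by decide) (by decide) 4 (by decide))
      (fin 12 (by decide) (by decide) 6 (by decide)) (fin 12 (by decide) (by decide) 9 (by decide))

end Pool.Agent.Lib.MP_866d96_co
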